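import Pool.Agent.helper69.AD.GS4

/-!
Module CLA of the project ag: the surface group is finitely generated.
-/

open scoped MatrixGroups LinearAlgebra.Projectivization
open Matrix UpperHalfPlane

namespace AdSBend

theorem CLA : CLA_stmt := by
  intro Γ hΓ
  obtain ⟨K, hKc, hK⟩ := hΓ.cocompact
  obtain ⟨R, hR⟩ := hKc.isBounded.subset_ball (I : ℍ)
  set r : ℝ := max R 1 with hr
  have hKr : K ⊆ Metric.ball (I : ℍ) r := hR.trans (Metric.ball_subset_ball (le_max_left _ _))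
  have hr1 : 0 < r := lt_of_lt_of_le one_pos (le_max_right _ _)
  have hfin := hΓ.proper (Metric.closedBall (I : ℍ) r) (isCompact_closedBall _ _)
  have hmem : ∀ g : SL(2, ℝ), g ∈ hfin.toFinset ↔
      g ∈ Γ ∧ ∃ z ∈ Metric.closedBall (I : ℍ) r, g • z ∈ Metric.closedBall (I : ℍ) r := by
    intro g
    rw [Set.Finite.mem_toFinset]; rfl
  refine ⟨hfin.toFinset, fun γ hγ => ((hmem γ).mp hγ).1, ?_⟩
  set L : Subgroup SL(2, ℝ) := Subgroup.closure (hfin.toFinset : Set SL(2, ℝ)) with hL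
  have hLmem : ∀ g ∈ Γ, ∀ z ∈ Metric.closedBall (I : ℍ) r, g • z ∈ Metric.closedBall (I : ℍ) r →
      g ∈ L := by
    intro g hg z hz hgz
    exact Subgroup.subset_closure ((hmem g).mpr ⟨hg, z, hz, hgz⟩)
  have hLΓ : L ≤ Γ := by
    rw [hL, Subgroup.closure_le]
    intro g hg
    exact ((hmem g).mp hg).1
  set A : Set ℍ := ⋃ g ∈ L, (fun z : ℍ => g • z) ⁻¹' Metric.ball (I : ℍ) r with hA
  have hcont : ∀ g : SL(2, ℝ), Continuous fun z : ℍ => g • z := fun g => (isometry_smul ℍ g).continuous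
  have hAo : IsOpen A :=
    isOpen_biUnion fun g _ => Metric.isOpen_ball.preimage (hcont g)
  have hAmem : ∀ z : ℍ, z ∈ A ↔ ∃ g ∈ L, g • z ∈ Metric.ball (I : ℍ) r := by
    intro z
    simp only [hA, Set.mem_iUnion, Set.mem_preimage, exists_prop]
  have hAc : IsClosed A := by
    rw [← isOpen_compl_iff, isOpen_iff_mem_nhds]
    intro z hz
    obtain ⟨γ, hγ, hγz⟩ := hK z
    have hnb : (fun z : ℍ => γ • z) ⁻¹' Metric.ball (I : ℍ) r ∈ nhds z :=
      (Metric.isOpen_ball.preimage (hcont γ)).mem_nhds (hKr hγz)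
    filter_upwards [hnb] with w hw
    intro hwA
    obtain ⟨g, hg, hgw⟩ := (hAmem w).mp hwA
    have h1 : γ * g⁻¹ ∈ L := by
      refine hLmem _ (Γ.mul_mem hγ (Γ.inv_mem (hLΓ hg))) (g • w)
        (Metric.ball_subset_closedBall hgw) ?_
      rw [mul_smul, inv_smul_smul]
      exact Metric.ball_subset_closedBall hw
    have h2 : γ ∈ L := by
      have := L.mul_mem h1 hg
      rwa [inv_mul_cancel_right] at this
    exact hz ((hAmem z).mpr ⟨γ, h2, hKr hγz⟩)
  have hne : A.Nonempty := ⟨I, (hAmem I).mpr ⟨1, L.one_mem, by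
    rw [one_smul]; exact Metric.mem_ball_self hr1⟩⟩
  have hAu : A = Set.univ := IsClopen.eq_univ ⟨hAc, hAo⟩ hne
  refine le_antisymm ?_ hLΓ
  intro γ hγ
  have h1 : γ⁻¹ • (I : ℍ) ∈ A := by rw [hAu]; trivial
  obtain ⟨g, hg, hgw⟩ := (hAmem _).mp h1
  have h2 : g * γ⁻¹ ∈ L := by
    refine hLmem _ (Γ.mul_mem (hLΓ hg) (Γ.inv_mem hγ)) I
      (Metric.mem_closedBall_self hr1.le) ?_
    rw [mul_smul]
    exact Metric.ball_subset_closedBall hgw
  have h3 : γ⁻¹ ∈ L := by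
    have := L.mul_mem (L.inv_mem hg) h2
    rwa [inv_mul_cancel_left] at this
  have := L.inv_mem h3
  rwa [inv_inv] at this

end AdSBend
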