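import Pool.Agent.helper69.AD.GS2

/-!
Module GM1 of the project ag: closed geodesics have a generator.
-/

open scoped MatrixGroups LinearAlgebra.Projectivization
open Matrix UpperHalfPlane

namespace AdSBend

theorem GM1_Dm_add (s t : ℝ) : Dm (s + t) = Dm s * Dm t := by
  ext i j
  fin_cases i <;> fin_cases j <;> simp [Dm, Matrix.mul_apply, Fin.sum_univ_two, ← Real.exp_add] <;>
    ring_nf

theorem GM1_Dm_zero : Dm 0 = 1 := by
  ext i j
  fin_cases i <;> fin_cases j <;> simp [Dm]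

theorem GM1_Dm_neg (t : ℝ) : Dm (-t) = (Dm t)⁻¹ := by
  rw [eq_inv_iff_mul_eq_one, ← GM1_Dm_add, neg_add_cancel, GM1_Dm_zero]

/-- conjugate of the translation -/
noncomputable def GM1_c (F : SL(2, ℝ)) (t : ℝ) : SL(2, ℝ) := F * Dm t * F⁻¹

theorem GM1_c_add (F : SL(2, ℝ)) (s t : ℝ) : GM1_c F (s + t) = GM1_c F s * GM1_c F t := by
  unfold GM1_c; rw [GM1_Dm_add]; group

theorem GM1_c_zero (F : SL(2, ℝ)) : GM1_c F 0 = 1 := by
  unfold GM1_c; rw [GM1_Dm_zero]; group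

theorem GM1_c_neg (F : SL(2, ℝ)) (t : ℝ) : GM1_c F (-t) = (GM1_c F t)⁻¹ := by
  rw [eq_inv_iff_mul_eq_one, ← GM1_c_add, neg_add_cancel, GM1_c_zero]

theorem GM1_c_zsmul (F : SL(2, ℝ)) (n : ℤ) (t : ℝ) : GM1_c F (n • t) = (GM1_c F t) ^ n := by
  induction n using Int.induction_on with
  | zero => simp [GM1_c_zero]
  | succ n ih => rw [add_smul, one_smul, GM1_c_add, ih, _root_.zpow_add_one]
  | pred n ih =>
    rw [sub_smul, one_smul, sub_eq_add_neg, GM1_c_add, ih, GM1_c_neg, _root_.zpow_sub_one]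

theorem GM1_PEq_mul {g h g' h' : SL(2, ℝ)} (h1 : PEq g h) (h2 : PEq g' h') :
    PEq (g * g') (h * h') := by
  rcases h1 with rfl | rfl <;> rcases h2 with rfl | rfl
  · left; rfl
  · right; exact mul_neg _ _
  · right; exact neg_mul _ _
  · left; exact neg_mul_neg _ _

theorem GM1_neg_inv (g : SL(2, ℝ)) : (-g)⁻¹ = -g⁻¹ := by
  rw [inv_eq_iff_mul_eq_one, neg_mul_neg, mul_inv_cancel]

theorem GM1_PEq_inv {g h : SL(2, ℝ)} (h1 : PEq g h) : PEq g⁻¹ h⁻¹ := by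
  rcases h1 with rfl | rfl
  · left; rfl
  · right; exact GM1_neg_inv _

theorem GM1_PEq_symm {g h : SL(2, ℝ)} (h1 : PEq g h) : PEq h g := by
  rcases h1 with rfl | rfl
  · left; rfl
  · right; exact (neg_neg _).symm

theorem GM1_PEq_trans {g h k : SL(2, ℝ)} (h1 : PEq g h) (h2 : PEq h k) : PEq g k := by
  rcases h1 with rfl | rfl <;> rcases h2 with rfl | rfl
  · left; rfl
  · right; rfl
  · right; rfl
  · left; exact neg_neg _

theorem GM1_PEq_zpow {g h : SL(2, ℝ)} (h1 : PEq g h) (n : ℤ) : PEq (g ^ n) (h ^ n) := by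
  rcases h1 with rfl | rfl
  · left; rfl
  · induction n using Int.induction_on with
    | zero => left; simp
    | succ n ih =>
      rw [_root_.zpow_add_one, _root_.zpow_add_one]
      exact GM1_PEq_mul ih (Or.inr rfl)
    | pred n ih =>
      rw [_root_.zpow_sub_one, _root_.zpow_sub_one]
      exact GM1_PEq_mul ih (Or.inr (GM1_neg_inv _))

theorem GM1_PEq_pos (g : SL(2, ℝ)) : PEq g (pos g) := by
  unfold pos
  split_ifs
  · left; rfl
  · right; exact (neg_neg _).symm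

theorem GM1_neg_smul (g : SL(2, ℝ)) (z : ℍ) : (-g) • z = g • z := by
  apply UpperHalfPlane.ext
  rw [UpperHalfPlane.coe_specialLinearGroup_apply, UpperHalfPlane.coe_specialLinearGroup_apply]
  have h : ∀ i j, ((-g : SL(2, ℝ)) i j : ℝ) = -(g i j) := by
    intro i j
    rw [Matrix.SpecialLinearGroup.coe_neg]; rfl
  simp only [h, map_neg, Complex.ofReal_neg]
  rw [← neg_div_neg_eq]
  congr 1 <;> ring

theorem GM1_PEq_smul {g h : SL(2, ℝ)} (h1 : PEq g h) (z : ℍ) : g • z = h • z := by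
  rcases h1 with rfl | rfl
  · rfl
  · exact GM1_neg_smul _ _

theorem GM1_PEq_c_inj {F : SL(2, ℝ)} {s t : ℝ} (h : PEq (GM1_c F s) (GM1_c F t)) : s = t := by
  have h1 : PEq (Dm s) (Dm t) := by
    have e : ∀ u, Dm u = F⁻¹ * GM1_c F u * F := by
      intro u; unfold GM1_c; group
    rw [e s, e t]
    rcases h with h | h
    · left; rw [h]
    · right; rw [h, mul_neg, neg_mul]
  rcases h1 with h1 | h1
  · have h2 := congrArg (fun g : SL(2, ℝ) => g.1 0 0) h1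
    simp [Dm] at h2
    exact h2
  · have h2 := congrArg (fun g : SL(2, ℝ) => g.1 0 0) h1
    simp [Dm] at h2
    have h3 := Real.exp_pos (s / 2)
    have h4 := Real.exp_pos (t / 2)
    linarith

/-- the displacement of the base point of the frame -/
theorem GM1_dist (hPT5 : PT5_stmt) (F : SL(2, ℝ)) (t : ℝ) :
    dist (GM1_c F t • (F • (I : ℍ))) (F • (I : ℍ)) = |t| := by
  have h1 : GM1_c F t • (F • (I : ℍ)) = F • (Dm t • (I : ℍ)) := by
    unfold GM1_c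
    rw [← mul_smul, ← mul_smul]
    congr 1
    group
  rw [h1, dist_smul]
  have h2 := hPT5.2.2 t I
  have hre : (Dm t • (I : ℍ)).re = (I : ℍ).re := by
    have h3 := congrArg Complex.re h2
    rw [Complex.re_ofReal_mul] at h3
    rw [← UpperHalfPlane.coe_re, h3]
    simp
  have him : (Dm t • (I : ℍ)).im = Real.exp t := by
    have h3 := congrArg Complex.im h2
    rw [Complex.im_ofReal_mul] at h3
    rw [← UpperHalfPlane.coe_im, h3]
    simp
  rw [UpperHalfPlane.dist_of_re_eq hre, him, Real.log_exp]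
  simp

/-- the translation lengths along the geodesic -/
def GM1_A (Γ : Subgroup SL(2, ℝ)) (F : SL(2, ℝ)) : AddSubgroup ℝ where
  carrier := {t | ∃ γ ∈ Γ, PEq γ (GM1_c F t)}
  zero_mem' := ⟨1, Γ.one_mem, by rw [GM1_c_zero]; exact Or.inl rfl⟩
  add_mem' := by
    rintro s t ⟨γ, hγ, h1⟩ ⟨δ, hδ, h2⟩
    exact ⟨γ * δ, Γ.mul_mem hγ hδ, by rw [GM1_c_add]; exact GM1_PEq_mul h1 h2⟩
  neg_mem' := by
    rintro t ⟨γ, hγ, h1⟩
    exact ⟨γ⁻¹, Γ.inv_mem hγ, by rw [GM1_c_neg]; exact GM1_PEq_inv h1⟩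

theorem GM1_not_dense (hPT5 : PT5_stmt) {Γ : Subgroup SL(2, ℝ)} (hΓ : IsClosedSurfaceGroup Γ)
    (F : SL(2, ℝ)) : ¬ Dense (GM1_A Γ F : Set ℝ) := by
  classical
  intro hd
  set K : Set ℍ := Metric.closedBall (F • (I : ℍ)) 1 with hK
  have hKc : IsCompact K := isCompact_closedBall _ _
  have hfin := hΓ.proper K hKc
  have hch : ∀ t : (GM1_A Γ F : Set ℝ), ∃ γ ∈ Γ, PEq γ (GM1_c F t) := fun t => t.2
  choose! c hc1 hc2 using hch
  have hI : ((GM1_A Γ F : Set ℝ) ∩ Set.Icc 0 1).Finite := by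
    refine Set.Finite.of_finite_image (f := fun t : ℝ =>
      if h : t ∈ (GM1_A Γ F : Set ℝ) then c ⟨t, h⟩ else 1) (hfin.subset ?_) ?_
    · rintro _ ⟨t, ⟨ht, ht1⟩, rfl⟩
      simp only [dif_pos ht]
      refine ⟨hc1 _, F • (I : ℍ), Metric.mem_closedBall_self zero_le_one, ?_⟩
      rw [GM1_PEq_smul (hc2 ⟨t, ht⟩), hK, Metric.mem_closedBall, GM1_dist hPT5, abs_le]
      constructor
      · linarith [ht1.1]
      · exact ht1.2
    · rintro s ⟨hs, -⟩ t ⟨ht, -⟩ hst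
      simp only [dif_pos hs, dif_pos ht] at hst
      have h1 := hc2 ⟨s, hs⟩
      have h2 := hc2 ⟨t, ht⟩
      rw [hst] at h1
      exact GM1_PEq_c_inj (GM1_PEq_trans (GM1_PEq_symm h1) h2)
  have hclosed : IsClosed ((GM1_A Γ F : Set ℝ) ∩ Set.Icc 0 1) := hI.isClosed
  have hsub : Set.Ioo (0 : ℝ) 1 ⊆ (GM1_A Γ F : Set ℝ) ∩ Set.Icc 0 1 := by
    have h1 : Set.Ioo (0 : ℝ) 1 ⊆ closure (Set.Ioo (0 : ℝ) 1 ∩ (GM1_A Γ F : Set ℝ)) :=
      hd.open_subset_closure_inter isOpen_Ioo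
    refine h1.trans ?_
    refine closure_minimal ?_ hclosed
    rintro t ⟨h1, h2⟩
    exact ⟨h2, Set.Ioo_subset_Icc_self h1⟩
  exact (Set.Ioo_infinite (zero_lt_one : (0 : ℝ) < 1)) (hI.subset hsub)

theorem GM1 (hBD6 : BD6_stmt) (hBD8 : BD8_stmt) (hPT5 : PT5_stmt) : GM1_stmt := by
  intro Γ hΓ p hp
  obtain ⟨hne, γ₀, hγ₀, h1, h2, hx, hy⟩ := hp
  obtain ⟨F, hF⟩ := hBD6.1 p hne
  obtain ⟨b1, b2, -, -, b5, -, b7, -⟩ := hBD8
  -- elements of the stabiliser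
  have key : ∀ γ ∈ Γ, γ • p.1 = p.1 → γ • p.2 = p.2 →
      ∃ t, PEq γ (GM1_c F t) ∧ (¬ PEq γ 1 → t ≠ 0) := by
    intro γ _ hx hy
    by_cases hγ1 : PEq γ 1
    · exact ⟨0, by rw [GM1_c_zero]; exact hγ1, fun h => absurd hγ1 h⟩
    · rcases b5 γ p.1 p.2 hne hx hy hγ1 with h | h
      · obtain ⟨h3, h4⟩ := b2 γ F p h hF
        exact ⟨len γ, by rw [GM1_c, ← h3]; exact GM1_PEq_pos γ, fun _ => h4.ne'⟩
      · have h' : Attracts γ⁻¹ p := b7 γ (p.2, p.1) h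
        obtain ⟨h3, h4⟩ := b2 γ⁻¹ F p h' hF
        refine ⟨-len γ⁻¹, ?_, fun _ => neg_ne_zero.mpr h4.ne'⟩
        rw [GM1_c_neg, GM1_c, ← h3]
        have := GM1_PEq_inv (GM1_PEq_pos γ⁻¹)
        rwa [inv_inv] at this
  have hcyc := ((GM1_A Γ F).dense_or_cyclic).resolve_left (GM1_not_dense hPT5 hΓ F)
  obtain ⟨a, ha⟩ := hcyc
  have hmem : ∀ t, t ∈ GM1_A Γ F ↔ ∃ n : ℤ, n • a = t := by
    intro t
    rw [ha, AddSubgroup.mem_closure_singleton]
  have ha0 : a ≠ 0 := by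
    intro h0
    obtain ⟨t, ht1, ht2⟩ := key γ₀ hγ₀ hx hy
    have h3 : ¬ PEq γ₀ 1 := by
      rintro (h | h)
      · exact h1 h
      · exact h2 h
    obtain ⟨n, hn⟩ := (hmem t).mp ⟨γ₀, hγ₀, ht1⟩
    rw [h0, smul_zero] at hn
    exact ht2 h3 hn.symm
  -- the generator has positive translation length
  have habs : ∀ t, t ∈ GM1_A Γ F ↔ ∃ n : ℤ, n • |a| = t := by
    intro t
    rw [hmem t]
    rcases abs_choice a with h | h
    · rw [h]
    · rw [h]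
      constructor
      · rintro ⟨n, hn⟩
        exact ⟨-n, by rw [neg_smul_neg]; exact hn⟩
      · rintro ⟨n, hn⟩
        exact ⟨-n, by rw [_root_.neg_smul, ← smul_neg]; exact hn⟩
  have hapos : 0 < |a| := abs_pos.mpr ha0
  obtain ⟨g, hg, hgc⟩ : ∃ g ∈ Γ, PEq g (GM1_c F |a|) := (habs |a|).mpr ⟨1, one_smul _ _⟩
  have hex : ∃ g, IsGen Γ p g := by
    refine ⟨g, hg, (b1 g p).mpr ⟨F, |a|, hF, hapos, hgc⟩, ?_⟩
    intro γ hγ hγ1 hγ2
    obtain ⟨t, ht, -⟩ := key γ hγ hγ1 hγ2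
    obtain ⟨n, hn⟩ := (habs t).mp ⟨γ, hγ, ht⟩
    refine ⟨n, ?_⟩
    rw [← hn, GM1_c_zsmul] at ht
    exact GM1_PEq_trans ht (GM1_PEq_zpow (GM1_PEq_symm hgc) n)
  unfold gen
  rw [dif_pos hex]
  exact hex.choose_spec

end AdSBend
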