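import Pool.Agent.helper69.AD.GS5
import Pool.Agent.helper30.AG.GM1

/-!
Module FC3 of the project ag: the arc matrices.
-/

open scoped MatrixGroups LinearAlgebra.Projectivization
open Matrix UpperHalfPlane
open Pool.Agent.helper73.AD (PS Arc Word sg AData Family PreFamily Cone bs)

namespace AdSBend

open LeafSystem

theorem FC3_sd_comm (a b c : ℝ) : sd a b c = sd b a c := by
  unfold sd
  rw [mul_comm (Real.cosh (a / 2)) (Real.cosh (b / 2)),
    mul_comm (Real.sinh (a / 2)) (Real.sinh (b / 2))]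

theorem FC3_frame {a x F : SL(2, ℝ)} {d : ℝ} (h : SeamD a x F d) : IsSeamFrame a x F :=
  ⟨d, h.1, h.2.1, h.2.2⟩

/-- first seam case: the frame at the end is obtained from the frame at the start -/
theorem FC3_alg1 (h0 : FA0_stmt) {F G : SL(2, ℝ)} {d : ℝ} (h : PEq G (F * Em d * Rm)) :
    PEq (G * Rm) (F * Em d) := by
  obtain ⟨-, -, -, -, -, -, hR, -, -, -⟩ := h0
  have e : F * Em d * Rm * Rm = -(F * Em d) := by
    rw [mul_assoc, hR, mul_neg, mul_one]
  rcases h with rfl | rfl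
  · right; exact e
  · left; rw [neg_mul, e, neg_neg]

/-- second seam case -/
theorem FC3_alg2 (h0 : FA0_stmt) {F G : SL(2, ℝ)} {d : ℝ} (h : PEq F (G * Em d * Rm)) :
    PEq (G * Rm) (F * Em d) := by
  obtain ⟨-, -, -, hE, hE0, -, -, -, -, hRE⟩ := h0
  have e : G * Em d * Rm * Em d = G * Rm := by
    rw [mul_assoc (G * Em d), hRE, mul_assoc G, ← mul_assoc (Em d), hE, add_neg_cancel, hE0,
      one_mul]
  rcases h with rfl | rfl
  · left; rw [e]
  · right; rw [neg_mul, e, neg_neg]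

/-- wave case -/
theorem FC3_alg3 (h0 : FA0_stmt) {F G K g : SL(2, ℝ)} {d l : ℝ}
    (h1 : PEq F (K * Em d * Rm)) (h2 : PEq G (g * K * Em d * Rm))
    (h3 : PEq g (K * Dm l * K⁻¹)) :
    PEq (G * Rm) (F * -(Em d * Dm (-l) * Em (-d) * Rm)) := by
  obtain ⟨-, -, -, hE, hE0, -, hR, -, hRD, hRE⟩ := h0
  have e : (K * Dm l * K⁻¹) * K * Em d * Rm * Rm
      = -((K * Em d * Rm) * -(Em d * Dm (-l) * Em (-d) * Rm)) := by
    have e1 : (K * Dm l * K⁻¹) * K * Em d * Rm * Rm = -(K * Dm l * Em d) := by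
      rw [mul_assoc _ Rm Rm, hR, mul_neg, mul_one, mul_assoc _ K⁻¹ K, inv_mul_cancel, mul_one]
    have e2 : K * Em d * Rm * (Em d * Dm (-l) * Em (-d) * Rm) = -(K * Dm l * Em d) := by
      calc K * Em d * Rm * (Em d * Dm (-l) * Em (-d) * Rm)
          = K * Em d * (Rm * Em d) * Dm (-l) * Em (-d) * Rm := by simp only [mul_assoc]
        _ = K * (Em d * Em (-d)) * (Rm * Dm (-l)) * Em (-d) * Rm := by
            rw [hRE]; simp only [mul_assoc]
        _ = K * Dm l * (Rm * Em (-d)) * Rm := by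
            rw [hE, add_neg_cancel, hE0, hRD, neg_neg, mul_one]; simp only [mul_assoc]
        _ = K * Dm l * Em d * (Rm * Rm) := by
            rw [hRE, neg_neg]; simp only [mul_assoc]
        _ = -(K * Dm l * Em d) := by rw [hR, mul_neg, mul_one]
    rw [e1, mul_neg, e2, neg_neg]
  have h4 : PEq (G * Rm) ((K * Dm l * K⁻¹) * K * Em d * Rm * Rm) := by
    refine GM1_PEq_trans (GM1_PEq_mul h2 (Or.inl rfl)) ?_
    refine GM1_PEq_mul (GM1_PEq_mul (GM1_PEq_mul (GM1_PEq_mul h3 (Or.inl rfl)) (Or.inl rfl))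
      (Or.inl rfl)) (Or.inl rfl)
  have h5 : PEq (G * Rm) ((K * Em d * Rm) * -(Em d * Dm (-l) * Em (-d) * Rm)) :=
    GM1_PEq_trans h4 (Or.inr e)
  exact GM1_PEq_trans h5 (GM1_PEq_mul (GM1_PEq_symm h1) (Or.inl rfl))

theorem FC3 (h0 : FA0_stmt) (hFB1 : FB1_stmt) (hFB4 : FB4_stmt) (hHX1 : HX1_stmt)
    (hGM1 : GM1_stmt) : FC3_stmt := by
  intro Γ hΓ S J D r z hr hz p p' u v a F G hp hp' ha hF hG
  obtain ⟨hex, huniq, hequi, hD, hlen⟩ := hFB1 Γ hΓ S r hr
  have hcls := ((hFB4 Γ hΓ S J D r hr).2.2.1 z hz).2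
  obtain ⟨hrot, -, -, hga, -, -, -⟩ := hHX1 Γ hΓ S
  have hsw : sw p' ∈ S.L := S.swap p' hp'
  have hzp : z.1 (D.cls p) = len (r (gen Γ p)) := hcls p hp
  have hzp' : z.1 (D.cls p') = len (r (gen Γ (sw p'))) := by
    rw [← D.cls_sw p' hp']; exact hcls _ hsw
  rcases ha with ⟨x, hx, rfl, rfl, rfl⟩ | ⟨x, y, hx, hy, hu, hv, ha⟩
  · rcases hx with hx | hx
    · have hxL : x ∈ S.L := hx.2.1.2.1
      obtain ⟨-, h2, -⟩ := hD v (sw p') x F hx hF
      have hs : S.Seam (sw p') v := ⟨x, Or.inr hx⟩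
      have h3 := huniq (sw p') v _ G hs (FC3_frame h2) hG
      have h4 := FC3_alg1 h0 h3
      have : arcM (Arc.seam (D.cls v) (D.cls p') (D.cls x)) z.1
          = Em (sd (len (r (gen Γ v))) (len (r (gen Γ (sw p')))) (len (r (gen Γ x)))) := by
        simp only [arcM]
        rw [hzp, hzp', hcls x hxL]
      rw [this]
      exact h4
    · have hxL : x ∈ S.L := hx.2.1.2.1
      obtain ⟨-, h2, -⟩ := hD (sw p') v x G hx hG
      have hs : S.Seam v (sw p') := ⟨x, Or.inr hx⟩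
      have h3 := huniq v (sw p') _ F hs (FC3_frame h2) hF
      have h4 := FC3_alg2 h0 h3
      have : arcM (Arc.seam (D.cls v) (D.cls p') (D.cls x)) z.1
          = Em (sd (len (r (gen Γ (sw p')))) (len (r (gen Γ v))) (len (r (gen Γ x)))) := by
        simp only [arcM]
        rw [hzp, hzp', hcls x hxL, FC3_sd_comm]
      rw [this]
      exact h4
  · rw [hu] at hF
    rw [hv] at hG
    rw [ha]
    have hyL : y ∈ S.L := hx.2.1.2.1
    have hxL : x ∈ S.L := hx.2.1.1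
    have hH : S.Hex y p x := hrot _ _ _ (hrot _ _ _ hx)
    obtain ⟨K, hK⟩ := hr.2 y p x hH
    have hgen : IsGen Γ y (gen Γ y) := hGM1 Γ hΓ y (S.closed y hyL)
    have hgΓ : gen Γ y ∈ Γ := hgen.1
    have hgy : ga (gen Γ y) y = y := by
      apply Prod.ext
      · exact hgen.2.1.2.1
      · exact hgen.2.1.2.2.1
    obtain ⟨h1, h2, -⟩ := hD y p x K hH hK
    have hs : S.Seam p y := ⟨x, Or.inr hH⟩
    have hF1 := huniq p y _ F hs (FC3_frame h2) hF
    have hK2 := hequi (gen Γ y) hgΓ y p K ⟨x, Or.inl hH⟩ hK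
    rw [hgy, ← hy] at hK2
    have hH2 : S.Hex y (sw p') (ga (gen Γ y) x) := by
      have := hga (gen Γ y) hgΓ _ _ _ hH
      rwa [hgy, ← hy] at this
    obtain ⟨-, h3, -⟩ := hD y (sw p') (ga (gen Γ y) x) _ hH2 hK2
    have hs2 : S.Seam (sw p') y := ⟨ga (gen Γ y) x, Or.inr hH2⟩
    have hG1 := huniq (sw p') y _ G hs2 (FC3_frame h3) hG
    have hlp : len (r (gen Γ (sw p'))) = len (r (gen Γ p)) := by
      rw [hy]; exact (hlen p hp).2.2 _ hgΓ
    have hlx : len (r (gen Γ (ga (gen Γ y) x))) = len (r (gen Γ x)) :=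
      (hlen x hxL).2.2 _ hgΓ
    rw [hlp, hlx] at hG1
    have hg : PEq (r (gen Γ y)) (K * Dm (len (r (gen Γ y))) * K⁻¹) := by
      rw [← h1.2.1]; exact GM1_PEq_pos _
    have h4 := FC3_alg3 h0 hF1 hG1 hg
    have : arcM (Arc.wave (D.cls p) (D.cls y) (D.cls x)) z.1
        = -(Em (sd (len (r (gen Γ y))) (len (r (gen Γ p))) (len (r (gen Γ x))))
          * Dm (-(len (r (gen Γ y))))
          * Em (-(sd (len (r (gen Γ y))) (len (r (gen Γ p))) (len (r (gen Γ x))))) * Rm) := by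
      simp only [arcM]
      rw [hzp, hcls x hxL, hcls y hyL, FC3_sd_comm]
    rw [this]
    exact h4

end AdSBend
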