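import Pool.Agent.helper69.AD.GS6
import Pool.Agent.helper73.AD.Basic

/-!
Module XR2 of the project ag: local transitivity of the twist flows, uniformly near a point.
-/

open scoped MatrixGroups LinearAlgebra.Projectivization Topology
open Matrix UpperHalfPlane
open Pool.Agent.helper73.AD (PS Arc Word sg AData Family PreFamily Cone bs)

namespace AdSBend

section XR2gen

variable {E : Type} [NormedAddCommGroup E] [NormedSpace ℝ E]

/-- a solution moves slowly, positive times -/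
theorem XR2_stay1 {X : E → E} {z₀ : E} {r M τ : ℝ} (hX : ∀ z, ‖z - z₀‖ < r → ‖X z‖ < M)
    (hM : 0 ≤ M) {ζ : ℝ → E} (hζ : ∀ s, HasDerivAt ζ (X (ζ s)) s) (h0 : ‖ζ 0 - z₀‖ < r / 2)
    (hτ : M * τ < r / 2) : ∀ s, 0 ≤ s → s ≤ τ → ‖ζ s - ζ 0‖ ≤ M * s := by
  intro s hs hsτ
  have hc : Continuous ζ := continuous_iff_continuousAt.2 fun s => (hζ s).continuousAt
  refine image_norm_le_of_norm_deriv_right_lt_deriv_boundary (f := fun s => ζ s - ζ 0)
    (f' := fun s => X (ζ s)) (a := 0) (b := τ) (B := fun s => M * s) (B' := fun _ => M)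
    (hc.sub continuous_const).continuousOn ?_ ?_ ?_ ?_ ⟨hs, hsτ⟩
  · intro x _
    exact ((hζ x).sub_const (ζ 0)).hasDerivWithinAt
  · simp
  · intro x
    simpa using (hasDerivAt_id x).const_mul M
  · intro x hx h
    apply hX
    have h1 : ‖ζ x - z₀‖ ≤ ‖ζ x - ζ 0‖ + ‖ζ 0 - z₀‖ := norm_sub_le_norm_sub_add_norm_sub _ _ _
    have h2 : M * x ≤ M * τ := mul_le_mul_of_nonneg_left hx.2.le hM
    have h3 : ‖ζ x - ζ 0‖ = M * x := h
    linarith

/-- a solution moves slowly -/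
theorem XR2_stay {X : E → E} {z₀ : E} {r M τ : ℝ} (hX : ∀ z, ‖z - z₀‖ < r → ‖X z‖ < M)
    (hM : 0 ≤ M) {ζ : ℝ → E} (hζ : ∀ s, HasDerivAt ζ (X (ζ s)) s) (h0 : ‖ζ 0 - z₀‖ < r / 2)
    (hτ : M * τ < r / 2) : ∀ s, |s| ≤ τ → ‖ζ s - z₀‖ < r := by
  intro s hs
  have key : ‖ζ s - ζ 0‖ ≤ M * |s| := by
    rcases le_total 0 s with h | h
    · rw [abs_of_nonneg h] at hs ⊢
      exact XR2_stay1 hX hM hζ h0 hτ s h hs
    · rw [abs_of_nonpos h] at hs ⊢
      have h1 := XR2_stay1 (X := fun z => -X z) (z₀ := z₀) (r := r) (M := M) (τ := τ)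
        (fun z hz => by rw [norm_neg]; exact hX z hz) hM (ζ := fun s => ζ (-s))
        (fun s => by
          have := (hζ (-s)).scomp s (hasDerivAt_neg s)
          simpa [Function.comp_def] using this)
        (by simpa using h0) hτ (-s) (by linarith) hs
      simpa using h1
  have h1 : ‖ζ s - z₀‖ ≤ ‖ζ s - ζ 0‖ + ‖ζ 0 - z₀‖ := norm_sub_le_norm_sub_add_norm_sub _ _ _
  have h2 : M * |s| ≤ M * τ := mul_le_mul_of_nonneg_left hs hM
  linarith

theorem XR2_Icc {s τ : ℝ} (h : |s| ≤ τ) : s ∈ Set.Icc (-τ) τ := abs_le.1 h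

/-- comparison with the constant field -/
theorem XR2_lin {X : E → E} {z₀ : E} {r c τ : ℝ} (hX : ∀ z, ‖z - z₀‖ < r → ‖X z - X z₀‖ ≤ c)
    {ζ : ℝ → E} (hζ : ∀ s, HasDerivAt ζ (X (ζ s)) s) (hst : ∀ s, |s| ≤ τ → ‖ζ s - z₀‖ < r)
    (s s' : ℝ) (hs : |s| ≤ τ) (hs' : |s'| ≤ τ) :
    ‖ζ s - ζ s' - (s - s') • X z₀‖ ≤ c * |s - s'| := by
  have h1 := Convex.norm_image_sub_le_of_norm_hasDerivWithin_le (s := Set.Icc (-τ) τ)
    (f := fun u => ζ u - u • X z₀) (f' := fun u => X (ζ u) - X z₀) (C := c) (x := s') (y := s)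
    (fun u _ => by
      have := (hζ u).sub ((hasDerivAt_id u).smul_const (X z₀))
      exact (this.congr_deriv (by rw [one_smul])).hasDerivWithinAt)
    (fun u hu => hX _ (hst u (abs_le.2 hu))) (convex_Icc _ _) (XR2_Icc hs') (XR2_Icc hs)
  have h2 : ζ s - s • X z₀ - (ζ s' - s' • X z₀) = ζ s - ζ s' - (s - s') • X z₀ := by
    rw [sub_smul]; abel
  rw [h2] at h1
  simpa [Real.norm_eq_abs] using h1

/-- dependence on the initial point -/
theorem XR2_dep {X : E → E} {z₀ : E} {r L τ : ℝ} (hL : 0 ≤ L)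
    (hX : ∀ z z', ‖z - z₀‖ < r → ‖z' - z₀‖ < r → ‖X z - X z'‖ ≤ L * ‖z - z'‖)
    {ζ ζ' : ℝ → E} (hζ : ∀ s, HasDerivAt ζ (X (ζ s)) s) (hζ' : ∀ s, HasDerivAt ζ' (X (ζ' s)) s)
    (hst : ∀ s, |s| ≤ τ → ‖ζ s - z₀‖ < r) (hst' : ∀ s, |s| ≤ τ → ‖ζ' s - z₀‖ < r)
    (hτ : L * τ ≤ 1 / 2) (hτ0 : 0 ≤ τ) (s : ℝ) (hs : |s| ≤ τ) :
    ‖ζ s - ζ' s - (ζ 0 - ζ' 0)‖ ≤ 2 * L * |s| * ‖ζ 0 - ζ' 0‖ := by
  have hcD : Continuous (fun u => ζ u - ζ' u) :=
    continuous_iff_continuousAt.2 fun u => (hζ u).continuousAt.sub (hζ' u).continuousAt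
  have h00 : (0 : ℝ) ∈ Set.Icc (-τ) τ := ⟨by linarith, hτ0⟩
  obtain ⟨u, hu, hmax⟩ := (isCompact_Icc (a := -τ) (b := τ)).exists_isMaxOn ⟨0, h00⟩
    hcD.norm.continuousOn
  set m := ‖ζ u - ζ' u‖ with hm
  have hmax' : ∀ v, |v| ≤ τ → ‖ζ v - ζ' v‖ ≤ m := fun v hv => hmax (XR2_Icc hv)
  have key : ∀ v, |v| ≤ τ → ‖ζ v - ζ' v - (ζ 0 - ζ' 0)‖ ≤ L * m * |v| := by
    intro v hv
    have h1 := Convex.norm_image_sub_le_of_norm_hasDerivWithin_le (s := Set.Icc (-τ) τ)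
      (f := fun u => ζ u - ζ' u) (f' := fun u => X (ζ u) - X (ζ' u)) (C := L * m) (x := 0) (y := v)
      (fun u _ => ((hζ u).sub (hζ' u)).hasDerivWithinAt)
      (fun u hu => by
        refine (hX _ _ (hst u (abs_le.2 hu)) (hst' u (abs_le.2 hu))).trans ?_
        exact mul_le_mul_of_nonneg_left (hmax' u (abs_le.2 hu)) hL)
      (convex_Icc _ _) h00 (XR2_Icc hv)
    simpa [Real.norm_eq_abs] using h1
  have hm2 : m ≤ 2 * ‖ζ 0 - ζ' 0‖ := by
    have h1 := key u (abs_le.2 hu)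
    have h2 : ‖ζ u - ζ' u‖ ≤ ‖ζ u - ζ' u - (ζ 0 - ζ' 0)‖ + ‖ζ 0 - ζ' 0‖ := by
      have := norm_add_le (ζ u - ζ' u - (ζ 0 - ζ' 0)) (ζ 0 - ζ' 0)
      rwa [sub_add_cancel] at this
    have hm0 : 0 ≤ m := norm_nonneg _
    have h3 : L * m * |u| ≤ m / 2 := by
      have : L * |u| ≤ 1 / 2 := (mul_le_mul_of_nonneg_left (abs_le.2 hu) hL).trans hτ
      nlinarith
    rw [← hm] at h2
    linarith
  refine (key s hs).trans ?_
  have h4 : 0 ≤ L * |s| := mul_nonneg hL (abs_nonneg s)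
  nlinarith

end XR2gen

section XR2main

variable {J K : Type} [Fintype J] [DecidableEq J]

/-- the field -/
noncomputable def XR2_X (w : K → Word J) (k : K) (z : PS J) : PS J := sg (fderiv ℝ (w k).H z)

theorem XR2_lip (hGS : Pool.Agent.helper73.AD.GS_stmt) (hBF : Pool.Agent.helper73.AD.BF_stmt)
    (w : K → Word J) (k : K) (z₀ : PS J) (hz₀ : z₀ ∈ Cone J) :
    ∃ L : ℝ, 0 ≤ L ∧ ∃ r : ℝ, 0 < r ∧ ∀ z z', ‖z - z₀‖ < r → ‖z' - z₀‖ < r →
      ‖XR2_X w k z - XR2_X w k z'‖ ≤ L * ‖z - z'‖ := by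
  have hC : IsOpen (Cone J) := by
    have : Cone J = ⋂ j, {z : PS J | 0 < z.1 j} := by
      ext z; simp [Pool.Agent.helper73.AD.Cone]
    rw [this]
    exact isOpen_iInter_of_finite fun j =>
      isOpen_lt continuous_const ((continuous_apply j).comp continuous_fst)
  have h1 : ContDiffOn ℝ 2 (w k).H (Cone J) :=
    (hGS J).2.2.2.2 (w k) fun z hz => (hBF J (w k) z hz).1
  have h2 : ContDiffAt ℝ 2 (w k).H z₀ := h1.contDiffAt (hC.mem_nhds hz₀)
  have h3 : ContDiffAt ℝ 1 (fderiv ℝ (w k).H) z₀ := h2.fderiv_right (by norm_num)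
  have h4 : ContDiffAt ℝ 1 (fun z => Pool.Agent.helper73.AD.sgL (fderiv ℝ (w k).H z)) z₀ :=
    (Pool.Agent.helper73.AD.sgL (J := J)).contDiff.contDiffAt.comp z₀ h3
  obtain ⟨L, t, ht, hL⟩ := h4.exists_lipschitzOnWith
  obtain ⟨r, hr, hrt⟩ := Metric.mem_nhds_iff.1 ht
  refine ⟨L, L.2, r, hr, fun z z' hz hz' => ?_⟩
  have := hL.dist_le_mul z (hrt (by rwa [mem_ball_iff_norm])) z' (hrt (by rwa [mem_ball_iff_norm]))
  rw [dist_eq_norm, dist_eq_norm] at this
  exact this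

open Classical in
/-- the flow, restricted to the lengths -/
noncomputable def XR2_g {w : K → Word J} {Q : Set (J → ℝ)} (hQ : TwInv w Q) (k : K) (p : J → ℝ)
    (t : ℝ) (q : J → ℝ) : J → ℝ :=
  if h : q ∈ Q then ((hQ.2 q h p k).choose t).1 else q

theorem XR2_flow (hGS : Pool.Agent.helper73.AD.GS_stmt) (hBF : Pool.Agent.helper73.AD.BF_stmt)
    {w : K → Word J} {Q : Set (J → ℝ)} (hQ : TwInv w Q) (q₀ : J → ℝ) (hq₀ : ∀ j, 0 < q₀ j)
    (k : K) (p : J → ℝ) (ε : ℝ) (hε : 0 < ε) :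
    ∃ r τ L : ℝ, 0 < r ∧ 0 < τ ∧ 0 ≤ L ∧
      (∀ q ∈ Q, ∀ t, XR2_g hQ k p t q ∈ Q) ∧ (∀ q ∈ Q, XR2_g hQ k p 0 q = q) ∧
      (∀ q ∈ Q, ‖q - q₀‖ < r → ∀ t t', |t| ≤ τ → |t'| ≤ τ →
        ‖XR2_g hQ k p t q - XR2_g hQ k p t' q - (t - t') • (XR2_X w k (q₀, p)).1‖
          ≤ ε * |t - t'|) ∧
      (∀ q ∈ Q, ∀ q' ∈ Q, ‖q - q₀‖ < r → ‖q' - q₀‖ < r → ∀ t, |t| ≤ τ →
        ‖XR2_g hQ k p t q - XR2_g hQ k p t q' - (q - q')‖ ≤ L * |t| * ‖q - q'‖) := by
  obtain ⟨L, hL0, r₀, hr₀, hLip⟩ := XR2_lip hGS hBF w k (q₀, p) hq₀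
  set X := XR2_X w k with hX
  set z₀ : PS J := (q₀, p) with hz₀
  -- radius
  set r := min r₀ (ε / (L + 1)) with hr
  have hr0 : 0 < r := lt_min hr₀ (by positivity)
  have hrr₀ : r ≤ r₀ := min_le_left _ _
  have hLr : L * r ≤ ε := by
    have h1 : r ≤ ε / (L + 1) := min_le_right _ _
    calc L * r ≤ L * (ε / (L + 1)) := mul_le_mul_of_nonneg_left h1 hL0
      _ ≤ (L + 1) * (ε / (L + 1)) := by
          apply mul_le_mul_of_nonneg_right (by linarith) (by positivity)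
      _ = ε := by field_simp
  have hXc : ∀ z, ‖z - z₀‖ < r → ‖X z - X z₀‖ ≤ ε := by
    intro z hz
    have h1 := hLip z z₀ (lt_of_lt_of_le hz hrr₀) (by simpa using hr₀)
    refine h1.trans (le_trans (mul_le_mul_of_nonneg_left hz.le hL0) hLr)
  set M := ‖X z₀‖ + ε + 1 with hM
  have hM0 : 0 < M := by positivity
  have hXM : ∀ z, ‖z - z₀‖ < r → ‖X z‖ < M := by
    intro z hz
    have h1 := hXc z hz
    have h2 : ‖X z‖ ≤ ‖X z - X z₀‖ + ‖X z₀‖ := by
      have := norm_add_le (X z - X z₀) (X z₀)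
      rwa [sub_add_cancel] at this
    rw [hM]; linarith
  set τ := min (r / (4 * M)) (1 / (2 * (L + 1))) with hτ
  have hτ0 : 0 < τ := lt_min (by positivity) (by positivity)
  have hMτ : M * τ < r / 2 := by
    have h1 : τ ≤ r / (4 * M) := min_le_left _ _
    calc M * τ ≤ M * (r / (4 * M)) := mul_le_mul_of_nonneg_left h1 hM0.le
      _ = r / 4 := by field_simp
      _ < r / 2 := by linarith
  have hLτ : L * τ ≤ 1 / 2 := by
    have h1 : τ ≤ 1 / (2 * (L + 1)) := min_le_right _ _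
    calc L * τ ≤ L * (1 / (2 * (L + 1))) := mul_le_mul_of_nonneg_left h1 hL0
      _ ≤ (L + 1) * (1 / (2 * (L + 1))) := by
          apply mul_le_mul_of_nonneg_right (by linarith) (by positivity)
      _ = 1 / 2 := by field_simp
  have hspec : ∀ q (h : q ∈ Q), (hQ.2 q h p k).choose 0 = (q, p) ∧
      ∀ s, (hQ.2 q h p k).choose s ∈ Cone J ∧ ((hQ.2 q h p k).choose s).1 ∈ Q ∧
        HasDerivAt (hQ.2 q h p k).choose (X ((hQ.2 q h p k).choose s)) s :=
    fun q h => (hQ.2 q h p k).choose_spec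
  have hg : ∀ q (h : q ∈ Q) t, XR2_g hQ k p t q = ((hQ.2 q h p k).choose t).1 := by
    intro q h t; unfold XR2_g; rw [dif_pos h]
  have hstart : ∀ q (h : q ∈ Q), ‖q - q₀‖ < r / 2 → ‖(hQ.2 q h p k).choose 0 - z₀‖ < r / 2 := by
    intro q h hq
    rw [(hspec q h).1, hz₀, Prod.mk_sub_mk, sub_self, Prod.norm_mk]
    simpa using hq
  have hstay : ∀ q (h : q ∈ Q), ‖q - q₀‖ < r / 2 → ∀ s, |s| ≤ τ →
      ‖(hQ.2 q h p k).choose s - z₀‖ < r := fun q h hq =>
    XR2_stay hXM hM0.le (fun s => ((hspec q h).2 s).2.2) (hstart q h hq) hMτ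
  refine ⟨r / 2, τ, 2 * L, by positivity, hτ0, by positivity, ?_, ?_, ?_, ?_⟩
  · intro q h t
    rw [hg q h]; exact ((hspec q h).2 t).2.1
  · intro q h
    rw [hg q h, (hspec q h).1]
  · intro q h hq t t' ht ht'
    rw [hg q h, hg q h]
    have h1 := XR2_lin hXc (fun s => ((hspec q h).2 s).2.2) (hstay q h hq) t t' ht ht'
    refine le_trans ?_ h1
    have h2 := norm_fst_le ((hQ.2 q h p k).choose t - (hQ.2 q h p k).choose t'
      - (t - t') • X z₀)
    simpa using h2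
  · intro q h q' h' hq hq' t ht
    rw [hg q h, hg q' h']
    have h1 := XR2_dep hL0 (fun z z' hz hz' => hLip z z' (lt_of_lt_of_le hz hrr₀)
      (lt_of_lt_of_le hz' hrr₀)) (fun s => ((hspec q h).2 s).2.2)
      (fun s => ((hspec q' h').2 s).2.2) (hstay q h hq) (hstay q' h' hq') hLτ hτ0.le t ht
    have h3 : (hQ.2 q h p k).choose 0 - (hQ.2 q' h' p k).choose 0 = (q - q', (0 : J → ℝ)) := by
      rw [(hspec q h).1, (hspec q' h').1, Prod.mk_sub_mk, sub_self]
    have h4 : ‖((q - q', (0 : J → ℝ)) : PS J)‖ = ‖q - q'‖ := by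
      rw [Prod.norm_mk]; simp
    rw [h3, h4] at h1
    refine le_trans ?_ h1
    have h2 := norm_fst_le ((hQ.2 q h p k).choose t - (hQ.2 q' h' p k).choose t
      - (q - q', (0 : J → ℝ)))
    simpa using h2

theorem XR2_comp (hGS : Pool.Agent.helper73.AD.GS_stmt) (hBF : Pool.Agent.helper73.AD.BF_stmt)
    {w : K → Word J} {Q : Set (J → ℝ)} (hQ : TwInv w Q) (q₀ : J → ℝ) (hq₀ : ∀ j, 0 < q₀ j) :
    ∀ (n : ℕ) (k : Fin n → K) (p : Fin n → J → ℝ) (ε : ℝ), 0 < ε → ∃ δ : ℝ, 0 < δ ∧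
      ∀ q ∈ Q, ‖q - q₀‖ < δ → ∃ F : (Fin n → ℝ) → (J → ℝ), F 0 = q ∧ (∀ s, F s ∈ Q) ∧
        ∀ s s', ‖s‖ ≤ δ → ‖s'‖ ≤ δ →
          ‖F s - F s' - ∑ i, (s i - s' i) • (XR2_X w (k i) (q₀, p i)).1‖ ≤ ε * ‖s - s'‖ := by
  intro n
  induction n with
  | zero =>
    intro k p ε hε
    refine ⟨1, one_pos, fun q hq _ => ⟨fun _ => q, rfl, fun _ => hq, fun s s' _ _ => ?_⟩⟩
    simp only [Finset.univ_eq_empty, Finset.sum_empty, sub_self, norm_zero]
    positivity
  | succ n ih =>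
    intro k p ε hε
    obtain ⟨δ₁, hδ₁, ih⟩ := ih (fun i => k i.castSucc) (fun i => p i.castSucc) (ε / 4) (by positivity)
    obtain ⟨r, τ, L, hr, hτ, hL, g1, g2, g3, g4⟩ := XR2_flow hGS hBF hQ q₀ hq₀ (k (Fin.last n))
      (p (Fin.last n)) (ε / 4) (by positivity)
    set v : Fin n → (J → ℝ) := fun i => (XR2_X w (k i.castSucc) (q₀, p i.castSucc)).1 with hv
    set C : ℝ := ε / 4 + ∑ i, ‖v i‖ with hC
    have hC0 : 0 < C := by
      have : 0 ≤ ∑ i, ‖v i‖ := Finset.sum_nonneg fun i _ => norm_nonneg _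
      positivity
    set δ := min (min δ₁ τ) (min (r / (2 * (C + 1))) (ε / (4 * (L * C + 1)))) with hδ
    have hδ0 : 0 < δ := lt_min (lt_min hδ₁ hτ) (lt_min (by positivity) (by positivity))
    have hδ1 : δ ≤ δ₁ := (min_le_left _ _).trans (min_le_left _ _)
    have hδτ : δ ≤ τ := (min_le_left _ _).trans (min_le_right _ _)
    have hδr : (C + 1) * δ < r := by
      have h1 : δ ≤ r / (2 * (C + 1)) := (min_le_right _ _).trans (min_le_left _ _)
      calc (C + 1) * δ ≤ (C + 1) * (r / (2 * (C + 1))) :=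
            mul_le_mul_of_nonneg_left h1 (by positivity)
        _ = r / 2 := by field_simp
        _ < r := by linarith
    have hδε : L * C * δ ≤ ε / 4 := by
      have h1 : δ ≤ ε / (4 * (L * C + 1)) := (min_le_right _ _).trans (min_le_right _ _)
      have h0 : 0 ≤ L * C := by positivity
      calc L * C * δ ≤ (L * C + 1) * (ε / (4 * (L * C + 1))) := by
            apply mul_le_mul (by linarith) h1 hδ0.le (by linarith)
        _ = ε / 4 := by field_simp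
    refine ⟨δ, hδ0, fun q hq hqq => ?_⟩
    obtain ⟨F, F0, FQ, Fl⟩ := ih q hq (lt_of_lt_of_le hqq hδ1)
    refine ⟨fun s => XR2_g hQ (k (Fin.last n)) (p (Fin.last n)) (s (Fin.last n))
      (F (fun i => s i.castSucc)), ?_, fun s => g1 _ (FQ _) _, ?_⟩
    · change XR2_g hQ (k (Fin.last n)) (p (Fin.last n)) 0 (F 0) = q
      rw [F0]
      exact g2 q hq
    · intro s s' hs hs'
      set σ : Fin n → ℝ := fun i => s i.castSucc with hσ
      set σ' : Fin n → ℝ := fun i => s' i.castSucc with hσ'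
      have nσ : ‖σ‖ ≤ ‖s‖ := (pi_norm_le_iff_of_nonneg (norm_nonneg _)).2 fun i =>
        norm_le_pi_norm s i.castSucc
      have nσ' : ‖σ'‖ ≤ ‖s'‖ := (pi_norm_le_iff_of_nonneg (norm_nonneg _)).2 fun i =>
        norm_le_pi_norm s' i.castSucc
      have nσσ' : ‖σ - σ'‖ ≤ ‖s - s'‖ := (pi_norm_le_iff_of_nonneg (norm_nonneg _)).2 fun i =>
        norm_le_pi_norm (s - s') i.castSucc
      -- Lipschitz bound for F
      have hsum : ∀ a : Fin n → ℝ, ‖∑ i, a i • v i‖ ≤ (∑ i, ‖v i‖) * ‖a‖ := by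
        intro a
        refine (norm_sum_le _ _).trans ?_
        rw [Finset.sum_mul]
        refine Finset.sum_le_sum fun i _ => ?_
        rw [norm_smul, mul_comm]
        exact mul_le_mul_of_nonneg_left (norm_le_pi_norm a i) (norm_nonneg _)
      have FL : ∀ a b : Fin n → ℝ, ‖a‖ ≤ δ → ‖b‖ ≤ δ → ‖F a - F b‖ ≤ C * ‖a - b‖ := by
        intro a b ha hb
        have h1 := Fl a b (ha.trans hδ1) (hb.trans hδ1)
        have h2 := hsum (a - b)
        have h3 : ‖F a - F b‖ ≤ ‖F a - F b - ∑ i, (a i - b i) • v i‖ + ‖∑ i, (a - b) i • v i‖ := by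
          have := norm_add_le (F a - F b - ∑ i, (a i - b i) • v i) (∑ i, (a i - b i) • v i)
          rw [sub_add_cancel] at this
          exact this
        rw [hC]; nlinarith
      have hnear : ∀ a : Fin n → ℝ, ‖a‖ ≤ δ → ‖F a - q₀‖ < r := by
        intro a ha
        have h1 := FL a 0 ha (by simpa using hδ0.le)
        rw [F0, sub_zero] at h1
        have h2 : ‖F a - q₀‖ ≤ ‖F a - q‖ + ‖q - q₀‖ := norm_sub_le_norm_sub_add_norm_sub _ _ _
        have h3 : C * ‖a‖ ≤ C * δ := mul_le_mul_of_nonneg_left ha hC0.le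
        nlinarith
      have hσδ : ‖σ‖ ≤ δ := nσ.trans hs
      have hσ'δ : ‖σ'‖ ≤ δ := nσ'.trans hs'
      have ht : |s (Fin.last n)| ≤ δ := by
        have := norm_le_pi_norm s (Fin.last n)
        rw [Real.norm_eq_abs] at this
        exact this.trans hs
      have ht' : |s' (Fin.last n)| ≤ δ := by
        have := norm_le_pi_norm s' (Fin.last n)
        rw [Real.norm_eq_abs] at this
        exact this.trans hs'
      have htt' : |s (Fin.last n) - s' (Fin.last n)| ≤ ‖s - s'‖ := by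
        have := norm_le_pi_norm (s - s') (Fin.last n)
        rwa [Real.norm_eq_abs, Pi.sub_apply] at this
      have e1 := g4 (F σ) (FQ _) (F σ') (FQ _) (hnear σ hσδ) (hnear σ' hσ'δ) _ (ht.trans hδτ)
      have e2 := Fl σ σ' (hσδ.trans hδ1) (hσ'δ.trans hδ1)
      have e3 := g3 (F σ') (FQ _) (hnear σ' hσ'δ) _ _ (ht.trans hδτ) (ht'.trans hδτ)
      rw [Fin.sum_univ_castSucc]
      have hid : XR2_g hQ (k (Fin.last n)) (p (Fin.last n)) (s (Fin.last n)) (F σ)
          - XR2_g hQ (k (Fin.last n)) (p (Fin.last n)) (s' (Fin.last n)) (F σ')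
          - (∑ i : Fin n, (s i.castSucc - s' i.castSucc) •
              (XR2_X w (k i.castSucc) (q₀, p i.castSucc)).1
            + (s (Fin.last n) - s' (Fin.last n)) •
              (XR2_X w (k (Fin.last n)) (q₀, p (Fin.last n))).1)
          = (XR2_g hQ (k (Fin.last n)) (p (Fin.last n)) (s (Fin.last n)) (F σ)
              - XR2_g hQ (k (Fin.last n)) (p (Fin.last n)) (s (Fin.last n)) (F σ')
              - (F σ - F σ'))
            + (F σ - F σ' - ∑ i : Fin n, (σ i - σ' i) • v i)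
            + (XR2_g hQ (k (Fin.last n)) (p (Fin.last n)) (s (Fin.last n)) (F σ')
              - XR2_g hQ (k (Fin.last n)) (p (Fin.last n)) (s' (Fin.last n)) (F σ')
              - (s (Fin.last n) - s' (Fin.last n)) •
              (XR2_X w (k (Fin.last n)) (q₀, p (Fin.last n))).1) := by
        rw [hσ, hσ', hv]; abel
      rw [hid]
      refine (norm_add₃_le).trans ?_
      have e4 : L * |s (Fin.last n)| * ‖F σ - F σ'‖ ≤ ε / 4 * ‖s - s'‖ := by
        have h1 : ‖F σ - F σ'‖ ≤ C * ‖s - s'‖ :=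
          (FL σ σ' hσδ hσ'δ).trans (mul_le_mul_of_nonneg_left nσσ' hC0.le)
        calc L * |s (Fin.last n)| * ‖F σ - F σ'‖ ≤ L * δ * (C * ‖s - s'‖) := by
              apply mul_le_mul _ h1 (norm_nonneg _) (by positivity)
              exact mul_le_mul_of_nonneg_left ht hL
          _ = (L * C * δ) * ‖s - s'‖ := by ring
          _ ≤ ε / 4 * ‖s - s'‖ := mul_le_mul_of_nonneg_right hδε (norm_nonneg _)
      have e5 : ε / 4 * ‖σ - σ'‖ ≤ ε / 4 * ‖s - s'‖ :=
        mul_le_mul_of_nonneg_left nσσ' (by positivity)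
      have e6 : ε / 4 * |s (Fin.last n) - s' (Fin.last n)| ≤ ε / 4 * ‖s - s'‖ :=
        mul_le_mul_of_nonneg_left htt' (by positivity)
      have e7 : 0 ≤ ε * ‖s - s'‖ := by positivity
      linarith

/-- the twist fields span the length directions -/
theorem XR2_span (hXR1 : XR1_stmt) [Fintype K] [DecidableEq K] (w : K → Word J)
    (hw : ∀ j, ∃ k i, (w k).j i = j) (q₀ : J → ℝ) (hq₀ : ∀ j, 0 < q₀ j) :
    Submodule.span ℝ (Set.range fun kp : K × (J → ℝ) => (XR2_X w kp.1 (q₀, kp.2)).1) = ⊤ := by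
  by_contra hne
  obtain ⟨f, hf, hle⟩ := Submodule.exists_le_ker_of_lt_top _ (lt_top_iff_ne_top.2 hne)
  apply hf
  set c : J → ℝ := fun j => f (Pi.single j 1) with hc
  have hfc : ∀ x : J → ℝ, f x = ∑ j, x j * c j := by
    intro x
    conv_lhs => rw [pi_eq_sum_univ' x]
    rw [map_sum]
    refine Finset.sum_congr rfl fun j _ => ?_
    rw [map_smul, smul_eq_mul]
  have hc0 : c = 0 := by
    refine hXR1 J K w hw q₀ hq₀ c fun k p => ?_
    have h1 : f (XR2_X w k (q₀, p)).1 = 0 := by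
      have := hle (Submodule.subset_span (Set.mem_range_self (k, p)))
      simpa using this
    rw [hfc] at h1
    have h2 : ((0 : J → ℝ), c) = ∑ j, c j • (((0 : J → ℝ), Pi.single j 1) : PS J) := by
      apply Prod.ext
      · rw [Prod.fst_sum]; simp
      · rw [Prod.snd_sum]
        ext j
        simp [Finset.sum_apply, Pi.single_apply]
    rw [h2, map_sum]
    have h3 : ∀ j, (XR2_X w k (q₀, p)).1 j
        = -(fderiv ℝ (w k).H (q₀, p) ((0 : J → ℝ), Pi.single j 1)) := fun j => rfl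
    simp only [h3] at h1
    have h4 : ∑ j, -(fderiv ℝ (w k).H (q₀, p) ((0 : J → ℝ), Pi.single j 1)) * c j
        = -∑ j, fderiv ℝ (w k).H (q₀, p) (c j • (((0 : J → ℝ), Pi.single j 1) : PS J)) := by
      rw [← Finset.sum_neg_distrib]
      refine Finset.sum_congr rfl fun j _ => ?_
      rw [map_smul, smul_eq_mul]; ring
    rw [h4] at h1
    linarith
  ext j
  have : f (Pi.single j 1) = c j := rfl
  rw [LinearMap.comp_apply]
  simp only [LinearMap.coe_single, LinearMap.zero_comp, LinearMap.zero_apply]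
  rw [this, hc0]; rfl

end XR2main

open Metric in
theorem XR2 (hGS : Pool.Agent.helper73.AD.GS_stmt) (hBF : Pool.Agent.helper73.AD.BF_stmt)
    (hXR1 : XR1_stmt) : XR2_stmt := by
  intro J K _ _ _ _ w hw Q hQ q₀ hq₀
  have hspan := XR2_span hXR1 w hw q₀ hq₀
  obtain ⟨T, hT, hTs⟩ := (Submodule.fg_span_iff_fg_span_finset_subset _).1
    (by rw [hspan]; exact Module.finite_def.1 inferInstance)
  have hch : ∀ i : Fin T.card, ∃ kp : K × (J → ℝ),
      (XR2_X w kp.1 (q₀, kp.2)).1 = (T.equivFin.symm i : J → ℝ) := fun i =>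
    hT (T.equivFin.symm i).2
  choose kp hkp using hch
  set v : Fin T.card → (J → ℝ) := fun i => (XR2_X w (kp i).1 (q₀, (kp i).2)).1 with hv
  have hrange : Set.range v = (T : Set (J → ℝ)) := by
    ext x
    constructor
    · rintro ⟨i, rfl⟩
      rw [hv]
      simp only [hkp]
      exact (T.equivFin.symm i).2
    · intro hx
      refine ⟨T.equivFin ⟨x, hx⟩, ?_⟩
      rw [hv]
      simp only [hkp, Equiv.symm_apply_apply]
  set A : (Fin T.card → ℝ) →L[ℝ] (J → ℝ) :=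
    LinearMap.toContinuousLinearMap (Fintype.linearCombination ℝ v) with hA
  have hAv : ∀ s, A s = ∑ i, s i • v i := fun s => rfl
  have hsurj : A.range = ⊤ := by
    have h1 : LinearMap.range (Fintype.linearCombination ℝ v) = ⊤ := by
      rw [Fintype.range_linearCombination, hrange, ← hTs, hspan]
    exact h1
  set inv := ContinuousLinearMap.nonlinearRightInverseOfSurjective A hsurj with hinv
  have hpos : 0 < inv.nnnorm := ContinuousLinearMap.nonlinearRightInverseOfSurjective_nnnorm_pos A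
    hsurj
  set c : NNReal := inv.nnnorm⁻¹ / 2 with hcdef
  have hc0 : 0 < c := by positivity
  obtain ⟨δ, hδ, H⟩ := XR2_comp hGS hBF hQ q₀ hq₀ T.card (fun i => (kp i).1) (fun i => (kp i).2)
    (c : ℝ) (by exact_mod_cast hc0)
  set R : ℝ := ((inv.nnnorm : ℝ)⁻¹ - c) * δ with hR
  have hR0 : 0 < R := by
    have h1 : (c : ℝ) = (inv.nnnorm : ℝ)⁻¹ / 2 := by rw [hcdef]; push_cast; ring
    have h2 : (0 : ℝ) < (inv.nnnorm : ℝ)⁻¹ := by
      have : (0 : ℝ) < inv.nnnorm := by exact_mod_cast hpos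
      positivity
    have h3 : (inv.nnnorm : ℝ)⁻¹ - c = (inv.nnnorm : ℝ)⁻¹ / 2 := by rw [h1]; ring
    rw [hR, h3]; positivity
  refine ⟨min δ (R / 2), lt_min hδ (by positivity), fun q hq q' h1 h2 => ?_⟩
  obtain ⟨F, F0, FQ, Fl⟩ := H q hq (lt_of_lt_of_le h1 (min_le_left _ _))
  have happ : ApproximatesLinearOn F A (closedBall 0 δ) c := by
    intro s hs s' hs'
    rw [mem_closedBall_zero_iff] at hs hs'
    have := Fl s s' hs hs'
    have e : A (s - s') = ∑ i, (s i - s' i) • (XR2_X w (kp i).1 (q₀, (kp i).2)).1 := by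
      rw [hAv]; rfl
    rw [e]; exact this
  have hsur := happ.surjOn_closedBall_of_nonlinearRightInverse inv hδ.le (subset_refl _)
  have hq' : q' ∈ closedBall (F 0) (((inv.nnnorm : ℝ)⁻¹ - c) * δ) := by
    rw [F0, mem_closedBall, dist_eq_norm]
    have h3 : ‖q' - q‖ ≤ ‖q' - q₀‖ + ‖q₀ - q‖ := norm_sub_le_norm_sub_add_norm_sub _ _ _
    rw [norm_sub_rev q₀ q] at h3
    have h4 := min_le_right δ (R / 2)
    linarith
  obtain ⟨s, -, hs⟩ := hsur hq'
  rw [← hs]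
  exact FQ s

end AdSBend
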