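import Pool.Agent.helper69.AD.GS6

/-!
Module XR3 of the project ag: transitivity of the twist flows on the lengths.
-/

open scoped MatrixGroups LinearAlgebra.Projectivization Topology
open Matrix UpperHalfPlane
open Pool.Agent.helper73.AD (PS Arc Word sg AData Family PreFamily Cone bs)

namespace AdSBend

open Metric in
theorem XR3 (hXR2 : XR2_stmt) : XR3_stmt := by
  intro J K _ _ _ _ w hw Q hQ hne q hq
  by_contra hcon
  set P : Set (J → ℝ) := {q | ∀ j, 0 < q j} with hP
  have hconv : Convex ℝ P := by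
    have : P = Set.pi Set.univ fun _ => Set.Ioi (0 : ℝ) := by
      ext x; simp [hP, Set.mem_pi]
    rw [this]
    exact convex_pi fun _ _ => convex_Ioi 0
  have hpre : IsPreconnected P := hconv.isPreconnected
  have hloc : ∀ q₀ ∈ P, q₀ ∈ interior Q ∨ q₀ ∈ interior Qᶜ := by
    intro q₀ hq₀
    obtain ⟨ρ, hρ, h⟩ := hXR2 J K w hw Q hQ q₀ hq₀
    by_cases hex : ∃ x ∈ Q, ‖x - q₀‖ < ρ
    · left
      obtain ⟨x, hx, hxρ⟩ := hex
      rw [mem_interior_iff_mem_nhds]
      refine Filter.mem_of_superset (ball_mem_nhds q₀ hρ) fun y hy => ?_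
      rw [mem_ball_iff_norm] at hy
      exact h x hx y hxρ hy
    · right
      rw [mem_interior_iff_mem_nhds]
      refine Filter.mem_of_superset (ball_mem_nhds q₀ hρ) fun y hy hyQ => ?_
      rw [mem_ball_iff_norm] at hy
      exact hex ⟨y, hyQ, hy⟩
  obtain ⟨x, hx⟩ := hne
  have hxP : x ∈ P := hQ.1 x hx
  have h1 : (P ∩ interior Q).Nonempty := by
    refine ⟨x, hxP, ?_⟩
    rcases hloc x hxP with h | h
    · exact h
    · exact absurd hx (interior_subset h)
  have h2 : (P ∩ interior Qᶜ).Nonempty := by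
    refine ⟨q, hq, ?_⟩
    rcases hloc q hq with h | h
    · exact absurd (interior_subset h) hcon
    · exact h
  obtain ⟨y, -, hy1, hy2⟩ := hpre (interior Q) (interior Qᶜ) isOpen_interior isOpen_interior
    (fun z hz => hloc z hz) h1 h2
  exact interior_subset hy2 (interior_subset hy1)

end AdSBend
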